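import Mathlib

/-!
# Labelings of stacked books in sum form

The centres are labeled by `c i` and the pages by `L i j` (layer `i`, page `j`).  On an even layer
the centre belongs to the first side and the pages to the second side; on an odd layer it is the
other way round.
-/

set_option autoImplicit false

namespace Pool.Agent.StackedBooks

/-! ### Indices of edges and labelings in sum form -/

/-- Indices of the edges of a stacked book: the spokes, the rungs joining consecutive centres and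
the rungs joining consecutive copies of a page. -/
inductive Ed : Type
  | sp (i j : ℕ) : Ed
  | cr (i : ℕ) : Ed
  | pr (i j : ℕ) : Ed

/-- The index denotes an edge when there are `k` pages and `n` layers. -/
def Ed.Valid (k n : ℕ) : Ed → Prop
  | .sp i j => i < n ∧ j < k
  | .cr i => i + 1 < n
  | .pr i j => i + 1 < n ∧ j < k

/-- The sum of the two labels at the ends of an edge. -/
def Ed.sum (c : ℕ → ℕ) (L : ℕ → ℕ → ℕ) : Ed → ℕ
  | .sp i j => c i + L i j
  | .cr i => c i + c (i + 1)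
  | .pr i j => L i j + L (i + 1) j

/-- The number of edges. -/
def q (k n : ℕ) : ℕ := k * (2 * n - 1) + n - 1

/-- A good labeling in sum form. -/
structure Good (k n : ℕ) (c : ℕ → ℕ) (L : ℕ → ℕ → ℕ) : Prop where
  npos : 0 < n
  c0 : c 0 = 0
  L0 : ∀ j, j < k → L 0 j = j
  sumlt : ∀ e, Ed.Valid k n e → Ed.sum c L e < q k n
  inj : ∀ e e', Ed.Valid k n e → Ed.Valid k n e' → Ed.sum c L e = Ed.sum c L e' → e = e'
  cinj : ∀ i i', i < n → i' < n → i % 2 = i' % 2 → c i = c i' → i = i'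
  linj : ∀ i i' j j', i < n → i' < n → j < k → j' < k → i % 2 = i' % 2 → L i j = L i' j' →
    i = i' ∧ j = j'
  clne : ∀ i i' j, i < n → i' < n → j < k → i % 2 ≠ i' % 2 → c i ≠ L i' j
  cB : ∀ i, i < n → i % 2 = 1 → k ≤ c i
  lA : ∀ i j, i < n → j < k → i % 2 = 1 → 0 < L i j
  bound : ∃ M N, M + N < q k n ∧ (∀ i, i < n → i % 2 = 0 → c i ≤ M) ∧
    (∀ i, i < n → i % 2 = 1 → c i ≤ N) ∧ (∀ i j, i < n → j < k → i % 2 = 1 → L i j ≤ M) ∧
    (∀ i j, i < n → j < k → i % 2 = 0 → L i j ≤ N)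

lemma q_add_two (k n : ℕ) (hn : 0 < n) : q k (n + 2) = q k n + (4 * k + 2) := by
  obtain ⟨n, rfl⟩ : ∃ l, n = l + 1 := ⟨n - 1, by omega⟩
  unfold q
  have h1 : 2 * (n + 1 + 2) - 1 = (2 * (n + 1) - 1) + 4 := by omega
  rw [h1, Nat.mul_add]
  omega

/-! ### The block of two layers -/

/-- The positions of the pages on the next layer but one. -/
def tau (k x : ℕ) : ℕ := if x = 0 then k - 1 else x - 1

/-- The labels of the pages on the next layer. -/
def Y (k x : ℕ) : ℕ :=
  if x = 0 then (3 * k + 1) / 2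
  else if x % 2 = 1 then (2 * k + 1 - x) / 2
  else (5 * k + 1 - x) / 2

lemma tau_lt {k x : ℕ} (hx : x < k) : tau k x < k := by
  unfold tau; split_ifs <;> omega

lemma tau_inj {k x x' : ℕ} (hx : x < k) (hx' : x' < k) (h : tau k x = tau k x') : x = x' := by
  unfold tau at h; split_ifs at h <;> omega

lemma Y_facts {k x : ℕ} (hk : k % 2 = 1) (hx : x < k) :
    0 < Y k x ∧ Y k x ≤ 3 * k ∧ k < x + Y k x ∧ x + Y k x ≤ 4 * k ∧ Y k x + tau k x < 3 * k := by
  unfold Y tau; split_ifs <;> omega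

lemma Y_facts2 {k x x' : ℕ} (hk : k % 2 = 1) (hx : x < k) (hx' : x' < k) :
    (Y k x = Y k x' → x = x') ∧ (x + Y k x = x' + Y k x' → x = x') ∧
    (Y k x + tau k x = Y k x' + tau k x' → x = x') := by
  unfold Y tau; refine ⟨?_, ?_, ?_⟩ <;> intro h <;> split_ifs at h <;> omega

lemma Y_facts3 {k x x' : ℕ} (hk : k % 2 = 1) (hx : x < k) (hx' : x' < k) :
    k + Y k x ≠ x' + Y k x' ∧ Y k x ≠ Y k x' + tau k x' + 1 ∧
    x + Y k x ≠ Y k x' + tau k x' + k + 1 := by
  unfold Y tau; refine ⟨?_, ?_, ?_⟩ <;> split_ifs <;> omega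


/-- Centres after prepending a block of two layers. -/
def cStep (k : ℕ) (c : ℕ → ℕ) : ℕ → ℕ
  | 0 => 0
  | 1 => k
  | (i + 2) => c i + (if i % 2 = 0 then 3 * k + 1 else k + 1)

/-- Pages after prepending a block of two layers. -/
def lStep (k : ℕ) (L : ℕ → ℕ → ℕ) : ℕ → ℕ → ℕ
  | 0, j => j
  | 1, j => Y k j
  | (i + 2), j => L i (tau k j) + (if i % 2 = 0 then k + 1 else 3 * k + 1)

/-- The part of an edge index which survives in the shorter book. -/
def lift (k : ℕ) : Ed → Ed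
  | .sp i j => .sp (i - 2) (tau k j)
  | .cr i => .cr (i - 2)
  | .pr i j => .pr (i - 2) (tau k j)

/-- The layer of an edge index. -/
def lay : Ed → ℕ
  | .sp i _ => i
  | .cr i => i
  | .pr i _ => i

lemma sum_step {k : ℕ} {c : ℕ → ℕ} {L : ℕ → ℕ → ℕ} {e : Ed} (he : 2 ≤ lay e) :
    Ed.sum (cStep k c) (lStep k L) e = Ed.sum c L (lift k e) + (4 * k + 2) := by
  rcases e with ⟨_ | _ | i, j⟩ | ⟨_ | _ | i⟩ | ⟨_ | _ | i, j⟩ <;>
    simp only [lay] at he <;> try omega
  all_goals
    have h2 : i + 1 + 1 - 2 = i := by omega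
    have h : (i + 1) % 2 = 0 ↔ ¬ i % 2 = 0 := by omega
    simp only [Ed.sum, cStep, lStep, lift, h2, h]
    split_ifs <;> omega

lemma lift_valid {k n : ℕ} {e : Ed} (he : 2 ≤ lay e) (hv : Ed.Valid k (n + 2) e) :
    Ed.Valid k n (lift k e) := by
  rcases e with ⟨i, j⟩ | ⟨i⟩ | ⟨i, j⟩ <;> simp only [lay] at he <;>
    simp only [Ed.Valid, lift] at hv ⊢
  · exact ⟨by omega, tau_lt hv.2⟩
  · omega
  · exact ⟨by omega, tau_lt hv.2⟩

lemma lift_inj {k n : ℕ} {e e' : Ed} (he : 2 ≤ lay e) (he' : 2 ≤ lay e')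
    (hv : Ed.Valid k (n + 2) e) (hv' : Ed.Valid k (n + 2) e') (h : lift k e = lift k e') :
    e = e' := by
  rcases e with ⟨i, j⟩ | ⟨i⟩ | ⟨i, j⟩ <;> rcases e' with ⟨i', j'⟩ | ⟨i'⟩ | ⟨i', j'⟩ <;>
    simp only [lay] at he he' <;> simp only [Ed.Valid] at hv hv' <;>
    simp only [lift, Ed.sp.injEq, Ed.cr.injEq, Ed.pr.injEq, reduceCtorEq] at h
  · obtain ⟨h1, h2⟩ := h
    have := tau_inj hv.2 hv'.2 h2
    have : i = i' := by omega
    subst this; subst_vars; rfl
  · have : i = i' := by omega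
    rw [this]
  · obtain ⟨h1, h2⟩ := h
    have := tau_inj hv.2 hv'.2 h2
    have : i = i' := by omega
    subst this; subst_vars; rfl

/-- The index belongs to the block and its sum, in terms of the block. -/
inductive InBlock (k : ℕ) : Ed → ℕ → Prop
  | a (j : ℕ) (hj : j < k) : InBlock k (.sp 0 j) j
  | b : InBlock k (.cr 0) k
  | c (j : ℕ) (hj : j < k) : InBlock k (.sp 1 j) (k + Y k j)
  | d (j : ℕ) (hj : j < k) : InBlock k (.pr 0 j) (j + Y k j)
  | e (j : ℕ) (hj : j < k) : InBlock k (.pr 1 j) (Y k j + tau k j + k + 1)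
  | f : InBlock k (.cr 1) (4 * k + 1)

lemma inBlock_lt {k : ℕ} (hk : k % 2 = 1) {e : Ed} {s : ℕ} (h : InBlock k e s) :
    s < 4 * k + 2 := by
  rcases h with ⟨j, hj⟩ | _ | ⟨j, hj⟩ | ⟨j, hj⟩ | ⟨j, hj⟩ | _
  · omega
  · omega
  · have := Y_facts hk hj; omega
  · have := Y_facts hk hj; omega
  · have := Y_facts hk hj; omega
  · omega

lemma inBlock_inj {k : ℕ} (hk : k % 2 = 1) {e e' : Ed} {s s' : ℕ} (h : InBlock k e s)
    (h' : InBlock k e' s') (hs : s = s') : e = e' := by
  rcases h with ⟨j, hj⟩ | _ | ⟨j, hj⟩ | ⟨j, hj⟩ | ⟨j, hj⟩ | _ <;>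
    rcases h' with ⟨j', hj'⟩ | _ | ⟨j', hj'⟩ | ⟨j', hj'⟩ | ⟨j', hj'⟩ | _ <;>
    (try have F1 := Y_facts hk hj) <;> (try have F2 := Y_facts hk hj') <;>
    (try have F3 := Y_facts2 hk hj hj') <;> (try have F4 := Y_facts3 hk hj hj') <;>
    (try have F5 := Y_facts3 hk hj' hj) <;>
    first
    | rfl
    | (exfalso; omega)
    | (subst hs; rfl)
    | (have hjj : j = j' := by omega
       subst hjj
       rfl)

lemma inBlock_of {k n : ℕ} {c : ℕ → ℕ} {L : ℕ → ℕ → ℕ} (hg : Good k n c L) {e : Ed}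
    (he : lay e < 2) (hv : Ed.Valid k (n + 2) e) :
    InBlock k e (Ed.sum (cStep k c) (lStep k L) e) := by
  rcases e with ⟨_ | _ | i, j⟩ | ⟨_ | _ | i⟩ | ⟨_ | _ | i, j⟩ <;>
    simp only [lay] at he <;> try omega
  · simp only [Ed.Valid] at hv
    have := InBlock.a (k := k) j hv.2
    simpa [Ed.sum, cStep, lStep] using this
  · simp only [Ed.Valid] at hv
    have := InBlock.c (k := k) j hv.2
    simpa [Ed.sum, cStep, lStep] using this
  · have := InBlock.b (k := k)
    simpa [Ed.sum, cStep, lStep] using this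
  · have := InBlock.f (k := k)
    have h2 : k + (3 * k + 1) = 4 * k + 1 := by omega
    simpa [Ed.sum, cStep, lStep, hg.c0, h2] using this
  · simp only [Ed.Valid] at hv
    have := InBlock.d (k := k) j hv.2
    simpa [Ed.sum, cStep, lStep] using this
  · simp only [Ed.Valid] at hv
    have := InBlock.e (k := k) j hv.2
    have h0 := hg.L0 (tau k j) (tau_lt hv.2)
    have h2 : Y k j + (tau k j + (k + 1)) = Y k j + tau k j + k + 1 := by omega
    simpa [Ed.sum, cStep, lStep, h0, h2] using this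


lemma cStep_val {k i : ℕ} {c : ℕ → ℕ} : (i = 0 ∧ cStep k c i = 0) ∨ (i = 1 ∧ cStep k c i = k) ∨
    (2 ≤ i ∧ i % 2 = 0 ∧ cStep k c i = c (i - 2) + (3 * k + 1)) ∨
    (2 ≤ i ∧ i % 2 = 1 ∧ cStep k c i = c (i - 2) + (k + 1)) := by
  rcases i with _ | _ | i
  · simp [cStep]
  · simp [cStep]
  · have h2 : i + 1 + 1 - 2 = i := by omega
    rcases Nat.mod_two_eq_zero_or_one i with h | h
    · right; right; left
      refine ⟨by omega, by omega, ?_⟩
      simp [cStep, h]
    · right; right; right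
      refine ⟨by omega, by omega, ?_⟩
      simp [cStep, h]

lemma lStep_val {k i j : ℕ} {L : ℕ → ℕ → ℕ} : (i = 0 ∧ lStep k L i j = j) ∨
    (i = 1 ∧ lStep k L i j = Y k j) ∨
    (2 ≤ i ∧ i % 2 = 0 ∧ lStep k L i j = L (i - 2) (tau k j) + (k + 1)) ∨
    (2 ≤ i ∧ i % 2 = 1 ∧ lStep k L i j = L (i - 2) (tau k j) + (3 * k + 1)) := by
  rcases i with _ | _ | i
  · simp [lStep]
  · simp [lStep]
  · have h2 : i + 1 + 1 - 2 = i := by omega
    rcases Nat.mod_two_eq_zero_or_one i with h | h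
    · right; right; left
      refine ⟨by omega, by omega, ?_⟩
      simp [lStep, h]
    · right; right; right
      refine ⟨by omega, by omega, ?_⟩
      simp [lStep, h]

/-- Prepending a block of two layers keeps a labeling good. -/
lemma Good.step {k n : ℕ} {c : ℕ → ℕ} {L : ℕ → ℕ → ℕ} (hk : k % 2 = 1) (hg : Good k n c L) :
    Good k (n + 2) (cStep k c) (lStep k L) := by
  have hq := q_add_two k n hg.npos
  refine ⟨by omega, rfl, fun j _ => rfl, ?_, ?_, ?_, ?_, ?_, ?_, ?_, ?_⟩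
  · intro e hv
    rcases Nat.lt_or_ge (lay e) 2 with h | h
    · have := inBlock_lt hk (inBlock_of hg h hv)
      omega
    · rw [sum_step h]
      have := hg.sumlt _ (lift_valid h hv)
      omega
  · intro e e' hv hv' hs
    rcases Nat.lt_or_ge (lay e) 2 with h | h <;> rcases Nat.lt_or_ge (lay e') 2 with h' | h'
    · exact inBlock_inj hk (inBlock_of hg h hv) (inBlock_of hg h' hv') hs
    · have h1 := inBlock_lt hk (inBlock_of hg h hv)
      rw [sum_step h'] at hs
      omega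
    · have h1 := inBlock_lt hk (inBlock_of hg h' hv')
      rw [sum_step h] at hs
      omega
    · rw [sum_step h, sum_step h'] at hs
      exact lift_inj h h' hv hv' (hg.inj _ _ (lift_valid h hv) (lift_valid h' hv') (by omega))
  · intro i i' hi hi' hp hs
    have h1 := cStep_val (k := k) (i := i) (c := c)
    have h2 := cStep_val (k := k) (i := i') (c := c)
    rcases h1 with h1 | h1 | h1 | h1 <;> rcases h2 with h2 | h2 | h2 | h2 <;> try omega
    · have := hg.cinj (i - 2) (i' - 2) (by omega) (by omega) (by omega) (by omega)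
      omega
    · have := hg.cinj (i - 2) (i' - 2) (by omega) (by omega) (by omega) (by omega)
      omega
  · intro i i' j j' hi hi' hj hj' hp hs
    have h1 := lStep_val (k := k) (i := i) (j := j) (L := L)
    have h2 := lStep_val (k := k) (i := i') (j := j') (L := L)
    have F1 := Y_facts hk hj
    have F2 := Y_facts hk hj'
    have F3 := Y_facts2 hk hj hj'
    have T1 := tau_lt hj
    have T2 := tau_lt hj'
    have T3 := tau_inj hj hj'
    rcases h1 with h1 | h1 | h1 | h1 <;> rcases h2 with h2 | h2 | h2 | h2 <;> try omega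
    · have := hg.linj (i - 2) (i' - 2) _ _ (by omega) (by omega) T1 T2 (by omega) (by omega)
      exact ⟨by omega, T3 this.2⟩
    · have := hg.linj (i - 2) (i' - 2) _ _ (by omega) (by omega) T1 T2 (by omega) (by omega)
      exact ⟨by omega, T3 this.2⟩
  · intro i i' j hi hi' hj hp hs
    have h1 := cStep_val (k := k) (i := i) (c := c)
    have h2 := lStep_val (k := k) (i := i') (j := j) (L := L)
    have F1 := Y_facts hk hj
    have T1 := tau_lt hj
    rcases h1 with h1 | h1 | h1 | h1 <;> rcases h2 with h2 | h2 | h2 | h2 <;> try omega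
    · exact hg.clne (i - 2) (i' - 2) _ (by omega) (by omega) T1 (by omega) (by omega)
    · exact hg.clne (i - 2) (i' - 2) _ (by omega) (by omega) T1 (by omega) (by omega)
  · intro i hi hp
    have h1 := cStep_val (k := k) (i := i) (c := c)
    omega
  · intro i j hi hj hp
    have h2 := lStep_val (k := k) (i := i) (j := j) (L := L)
    have F1 := Y_facts hk hj
    omega
  · obtain ⟨M, N, hMN, h1, h2, h3, h4⟩ := hg.bound
    have hk0 : 0 < k := by omega
    have hN : k - 1 ≤ N := by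
      have := h4 0 (k - 1) hg.npos (by omega) rfl
      rw [hg.L0 (k - 1) (by omega)] at this
      exact this
    refine ⟨M + (3 * k + 1), N + (k + 1), by omega, ?_, ?_, ?_, ?_⟩
    · intro i hi hp
      have hv := cStep_val (k := k) (i := i) (c := c)
      rcases hv with hv | hv | hv | hv
      · omega
      · omega
      · have := h1 (i - 2) (by omega) (by omega)
        omega
      · omega
    · intro i hi hp
      have hv := cStep_val (k := k) (i := i) (c := c)
      rcases hv with hv | hv | hv | hv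
      · omega
      · omega
      · omega
      · have := h2 (i - 2) (by omega) (by omega)
        omega
    · intro i j hi hj hp
      have hv := lStep_val (k := k) (i := i) (j := j) (L := L)
      have F1 := Y_facts hk hj
      rcases hv with hv | hv | hv | hv
      · omega
      · omega
      · omega
      · have := h3 (i - 2) (tau k j) (by omega) (tau_lt hj) (by omega)
        omega
    · intro i j hi hj hp
      have hv := lStep_val (k := k) (i := i) (j := j) (L := L)
      rcases hv with hv | hv | hv | hv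
      · omega
      · omega
      · have := h4 (i - 2) (tau k j) (by omega) (tau_lt hj) (by omega)
        omega
      · omega


/-! ### One layer -/

lemma good_one {k : ℕ} (hk : 0 < k) : Good k 1 (fun _ => 0) (fun _ j => j) := by
  have hq : q k 1 = k := by simp [q]
  refine ⟨by omega, rfl, fun j _ => rfl, ?_, ?_, ?_, ?_, ?_, ?_, ?_, ?_⟩
  · rintro (⟨i, j⟩ | ⟨i⟩ | ⟨i, j⟩) hv <;> simp only [Ed.Valid, Ed.sum] at hv ⊢ <;> omega
  · rintro (⟨i, j⟩ | ⟨i⟩ | ⟨i, j⟩) (⟨i', j'⟩ | ⟨i'⟩ | ⟨i', j'⟩) hv hv' hs <;>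
      simp only [Ed.Valid, Ed.sum] at hv hv' hs <;> try omega
    have h1 : i = i' := by omega
    have h2 : j = j' := by omega
    rw [h1, h2]
  · intros; omega
  · intro i i' j j' hi hi' hj hj' hp hs
    have hs' : j = j' := hs
    omega
  · intros; omega
  · intros; omega
  · intros; omega
  · refine ⟨0, k - 1, by omega, ?_, ?_, ?_, ?_⟩ <;> intros <;> omega

/-! ### Two layers, `k = 4 m + 1` -/

/-- Centres of the two layer labeling. -/
def c2 (k : ℕ) : ℕ → ℕ
  | 0 => 0
  | _ => k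

/-- Pages of the two layer labeling. -/
def L2 (P : ℕ → ℕ) : ℕ → ℕ → ℕ
  | 0, j => j
  | _, j => P j

lemma good_two {k : ℕ} (hk : 0 < k) (P : ℕ → ℕ) (h1 : ∀ j, j < k → k < j + P j ∧ P j ≤ 2 * k)
    (h2 : ∀ j j', j < k → j' < k → P j = P j' → j = j')
    (h3 : ∀ j j', j < k → j' < k → j + P j = j' + P j' → j = j')
    (h4 : ∀ j j', j < k → j' < k → j + P j ≠ k + P j') : Good k 2 (c2 k) (L2 P) := by
  have hq : q k 2 = 3 * k + 1 := by unfold q; omega
  have hc : ∀ i, i < 2 → (i = 0 ∧ c2 k i = 0) ∨ (i = 1 ∧ c2 k i = k) := by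
    intro i hi
    rcases i with _ | _ | i
    · simp [c2]
    · simp [c2]
    · omega
  have hl : ∀ i j, i < 2 → (i = 0 ∧ L2 P i j = j) ∨ (i = 1 ∧ L2 P i j = P j) := by
    intro i j hi
    rcases i with _ | _ | i
    · simp [L2]
    · simp [L2]
    · omega
  refine ⟨by omega, rfl, fun j _ => rfl, ?_, ?_, ?_, ?_, ?_, ?_, ?_, ?_⟩
  · rintro (⟨i, j⟩ | ⟨i⟩ | ⟨i, j⟩) hv <;> simp only [Ed.Valid, Ed.sum] at hv ⊢
    · have := hc i hv.1
      have := hl i j hv.1
      have := h1 j hv.2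
      omega
    · have := hc i (by omega)
      have := hc (i + 1) hv
      omega
    · have := hl i j (by omega)
      have := hl (i + 1) j hv.1
      have := h1 j hv.2
      omega
  · rintro (⟨i, j⟩ | ⟨i⟩ | ⟨i, j⟩) (⟨i', j'⟩ | ⟨i'⟩ | ⟨i', j'⟩) hv hv' hs <;>
      simp only [Ed.Valid, Ed.sum] at hv hv' hs
    · have := hc i hv.1
      have := hc i' hv'.1
      have := hl i j hv.1
      have := hl i' j' hv'.1
      have := h1 j hv.2
      have := h1 j' hv'.2
      have := h2 j j' hv.2 hv'.2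
      have h5 : i = i' := by omega
      have h6 : j = j' := by omega
      rw [h5, h6]
    · exfalso
      have := hc i hv.1
      have := hl i j hv.1
      have := hc i' (by omega)
      have := hc (i' + 1) (by omega)
      have := h1 j hv.2
      omega
    · exfalso
      have := hc i hv.1
      have := hl i j hv.1
      have := hl i' j' (by omega)
      have := hl (i' + 1) j' (by omega)
      have := h1 j hv.2
      have := h1 j' hv'.2
      have := h4 j' j hv'.2 hv.2
      omega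
    · exfalso
      have := hc i' hv'.1
      have := hl i' j' hv'.1
      have := hc i (by omega)
      have := hc (i + 1) (by omega)
      have := h1 j' hv'.2
      omega
    · have h5 : i = i' := by omega
      rw [h5]
    · exfalso
      have := hc i (by omega)
      have := hc (i + 1) (by omega)
      have := hl i' j' (by omega)
      have := hl (i' + 1) j' (by omega)
      have := h1 j' hv'.2
      omega
    · exfalso
      have := hc i' hv'.1
      have := hl i' j' hv'.1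
      have := hl i j (by omega)
      have := hl (i + 1) j (by omega)
      have := h1 j hv.2
      have := h1 j' hv'.2
      have := h4 j j' hv.2 hv'.2
      omega
    · exfalso
      have := hc i' (by omega)
      have := hc (i' + 1) (by omega)
      have := hl i j (by omega)
      have := hl (i + 1) j (by omega)
      have := h1 j hv.2
      omega
    · have := hl i j (by omega)
      have := hl (i + 1) j (by omega)
      have := hl i' j' (by omega)
      have := hl (i' + 1) j' (by omega)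
      have := h3 j j' hv.2 hv'.2
      have h5 : i = i' := by omega
      have h6 : j = j' := by omega
      rw [h5, h6]
  · intro i i' hi hi' hp hs
    omega
  · intro i i' j j' hi hi' hj hj' hp hs
    have := hl i j hi
    have := hl i' j' hi'
    have := h2 j j' hj hj'
    omega
  · intro i i' j hi hi' hj hp hs
    have := hc i hi
    have := hl i' j hi'
    have := h1 j hj
    omega
  · intro i hi hp
    have := hc i hi
    omega
  · intro i j hi hj hp
    have := hl i j hi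
    have := h1 j hj
    omega
  · refine ⟨2 * k, k, by omega, ?_, ?_, ?_, ?_⟩
    · intro i hi hp
      have := hc i hi
      omega
    · intro i hi hp
      have := hc i hi
      omega
    · intro i j hi hj hp
      have := hl i j hi
      have := h1 j hj
      omega
    · intro i j hi hj hp
      have := hl i j hi
      omega

/-- The larger element of the pair of difference `d` in a partition of `1, ..., 8 m + 2` into
pairs with differences `1, ..., 4 m + 1` (a Skolem sequence), for `m ≥ 2`. -/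
def sk (m d : ℕ) : ℕ :=
  if d % 2 = 0 then 6 * m + 2 + d / 2
  else if d = 1 then m + 2
  else if d = 4 * m + 1 then 6 * m + 2
  else if d = 2 * m - 1 then 4 * m + 1
  else if 2 * m + 1 ≤ d then (4 * m + 1 + d) / 2
  else (4 * m + 3 + d) / 2

lemma good_two_large {m : ℕ} (hm : 2 ≤ m) :
    Good (4 * m + 1) 2 (c2 (4 * m + 1)) (L2 fun j => sk m (4 * m + 1 - j)) := by
  apply good_two (by omega)
  · intro j hj
    simp only [sk]; split_ifs <;> omega
  · intro j j' hj hj' h
    simp only [sk] at h; split_ifs at h <;> omega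
  · intro j j' hj hj' h
    simp only [sk] at h; split_ifs at h <;> omega
  · intro j j' hj hj'
    simp only [sk]; split_ifs <;> omega

lemma good_two_one : ∃ c L, Good 1 2 c L := by
  refine ⟨_, _, good_two (by omega) (fun _ => 2) ?_ ?_ ?_ ?_⟩
  · intro j hj
    exact ⟨by omega, by omega⟩
  all_goals
    intro j j' hj hj'
    omega

/-- The special two layer labeling for `k = 5`. -/
def P5 : ℕ → ℕ
  | 0 => 6
  | 1 => 7
  | 2 => 8
  | 3 => 4
  | _ => 10

lemma good_two_five : ∃ c L, Good 5 2 c L := by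
  refine ⟨_, _, good_two (by omega) P5 ?_ ?_ ?_ ?_⟩
  · decide
  · have h : ∀ j, j < 5 → ∀ j', j' < 5 → P5 j = P5 j' → j = j' := by decide
    exact fun j j' hj hj' => h j hj j' hj'
  · have h : ∀ j, j < 5 → ∀ j', j' < 5 → j + P5 j = j' + P5 j' → j = j' := by decide
    exact fun j j' hj hj' => h j hj j' hj'
  · have h : ∀ j, j < 5 → ∀ j', j' < 5 → j + P5 j ≠ 5 + P5 j' := by decide
    exact fun j j' hj hj' => h j hj j' hj'

lemma exists_good_two {k : ℕ} (hk : k % 4 = 1) : ∃ c L, Good k 2 c L := by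
  obtain ⟨m, rfl⟩ : ∃ m, k = 4 * m + 1 := ⟨k / 4, by omega⟩
  rcases m with _ | _ | m
  · exact good_two_one
  · exact good_two_five
  · exact ⟨_, _, good_two_large (by omega)⟩


/-! ### Four layers, `k = 4 t + 3` -/

/-- The labels of the pages on the fourth layer, in terms of the positions on the third layer. -/
def W (t x : ℕ) : ℕ :=
  if x = 0 then 12 * t + 9
  else if x = 1 then 17 * t + 13
  else if x % 2 = 0 then
    (if x ≤ 2 * t + 2 then 18 * t + 15 - x / 2 else 16 * t + 14 - x / 2)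
  else
    (if x ≤ 2 * t - 1 then 16 * t + 11 - (x - 3) / 2 else 19 * t + 15 - (x - (2 * t + 1)) / 2)

/-- Centres of the four layer labeling. -/
def c4 (t : ℕ) : ℕ → ℕ
  | 0 => 0
  | 1 => 4 * t + 3
  | 2 => 12 * t + 11
  | _ => 9 * t + 8

/-- Pages of the four layer labeling. -/
def L4 (t : ℕ) : ℕ → ℕ → ℕ
  | 0, j => j
  | 1, j => Y (4 * t + 3) j
  | 2, j => tau (4 * t + 3) j + (4 * t + 4)
  | _, j => W t (tau (4 * t + 3) j)

lemma W_facts {t x : ℕ} (ht : 1 ≤ t) (hx : x < 4 * t + 3) :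
    12 * t + 9 ≤ W t x ∧ W t x ≠ 12 * t + 11 ∧ W t x ≤ 19 * t + 15 ∧
    (W t x + x + (4 * t + 4) = 16 * t + 13 ∨ 20 * t + 18 ≤ W t x + x + (4 * t + 4)) ∧
    W t x + x + (4 * t + 4) ≤ 28 * t + 23 ∧
    W t x + x + (4 * t + 4) ≠ 21 * t + 19 ∧
    W t x + (9 * t + 8) ≠ 21 * t + 19 ∧ 20 * t + 18 ≤ W t x + (9 * t + 8) := by
  unfold W; split_ifs <;> omega

lemma W_facts2 {t x x' : ℕ} (ht : 1 ≤ t) (hx : x < 4 * t + 3) (hx' : x' < 4 * t + 3) :
    (W t x = W t x' → x = x') ∧ (W t x + x = W t x' + x' → x = x') := by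
  unfold W; constructor <;> intro h <;> split_ifs at h <;> omega

lemma W_facts3 {t x x' : ℕ} (ht : 1 ≤ t) (hx : x < 4 * t + 3) (hx' : x' < 4 * t + 3) :
    W t x + x + (4 * t + 4) ≠ W t x' + (9 * t + 8) := by
  unfold W; split_ifs <;> omega


/-- The edges of the four layer labeling and their sums. -/
inductive InFour (t : ℕ) : Ed → ℕ → Prop
  | sp0 (j s : ℕ) (hj : j < 4 * t + 3) (hs : s = j) : InFour t (.sp 0 j) s
  | sp1 (j s : ℕ) (hj : j < 4 * t + 3) (hs : s = 4 * t + 3 + Y (4 * t + 3) j) :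
      InFour t (.sp 1 j) s
  | sp2 (j s : ℕ) (hj : j < 4 * t + 3) (hs : s = 16 * t + 15 + tau (4 * t + 3) j) :
      InFour t (.sp 2 j) s
  | sp3 (j s : ℕ) (hj : j < 4 * t + 3) (hs : s = W t (tau (4 * t + 3) j) + (9 * t + 8)) :
      InFour t (.sp 3 j) s
  | cr0 (s : ℕ) (hs : s = 4 * t + 3) : InFour t (.cr 0) s
  | cr1 (s : ℕ) (hs : s = 16 * t + 14) : InFour t (.cr 1) s
  | cr2 (s : ℕ) (hs : s = 21 * t + 19) : InFour t (.cr 2) s
  | pr0 (j s : ℕ) (hj : j < 4 * t + 3) (hs : s = j + Y (4 * t + 3) j) : InFour t (.pr 0 j) s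
  | pr1 (j s : ℕ) (hj : j < 4 * t + 3)
      (hs : s = Y (4 * t + 3) j + tau (4 * t + 3) j + (4 * t + 4)) : InFour t (.pr 1 j) s
  | pr2 (j s : ℕ) (hj : j < 4 * t + 3)
      (hs : s = W t (tau (4 * t + 3) j) + tau (4 * t + 3) j + (4 * t + 4)) : InFour t (.pr 2 j) s

lemma inFour_of {t : ℕ} {e : Ed} (hv : Ed.Valid (4 * t + 3) 4 e) :
    InFour t e (Ed.sum (c4 t) (L4 t) e) := by
  rcases e with ⟨_ | _ | _ | _ | i, j⟩ | ⟨_ | _ | _ | i⟩ | ⟨_ | _ | _ | i, j⟩ <;>
    simp only [Ed.Valid] at hv <;> try omega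
  · exact .sp0 _ _ hv.2 (by simp [Ed.sum, c4, L4])
  · exact .sp1 _ _ hv.2 (by simp [Ed.sum, c4, L4])
  · exact .sp2 _ _ hv.2 (by simp [Ed.sum, c4, L4]; omega)
  · exact .sp3 _ _ hv.2 (by simp [Ed.sum, c4, L4]; omega)
  · exact .cr0 _ (by simp [Ed.sum, c4])
  · exact .cr1 _ (by simp [Ed.sum, c4]; omega)
  · exact .cr2 _ (by simp [Ed.sum, c4]; omega)
  · exact .pr0 _ _ hv.2 (by simp [Ed.sum, L4])
  · exact .pr1 _ _ hv.2 (by simp [Ed.sum, L4]; omega)
  · exact .pr2 _ _ hv.2 (by simp [Ed.sum, L4]; omega)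

lemma inFour_lt {t : ℕ} (ht : 1 ≤ t) {e : Ed} {s : ℕ} (h : InFour t e s) :
    s < 28 * t + 24 := by
  have hk : (4 * t + 3) % 2 = 1 := by omega
  rcases h with ⟨j, s, hj, hs⟩ | ⟨j, s, hj, hs⟩ | ⟨j, s, hj, hs⟩ | ⟨j, s, hj, hs⟩ | ⟨s, hs⟩ |
    ⟨s, hs⟩ | ⟨s, hs⟩ | ⟨j, s, hj, hs⟩ | ⟨j, s, hj, hs⟩ | ⟨j, s, hj, hs⟩ <;>
    (try have F1 := Y_facts hk hj) <;> (try have F2 := tau_lt hj) <;>
    (try have F3 := W_facts ht F2) <;> omega

/-- The range in which the sum of an edge lies. -/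
def zone : Ed → ℕ
  | .sp 0 _ => 0
  | .cr 0 => 1
  | .sp 1 _ => 2
  | .pr 0 _ => 2
  | .pr 1 _ => 2
  | .cr 1 => 3
  | .sp 2 _ => 4
  | .cr 2 => 5
  | _ => 6

/-- The range in which a number lies. -/
def zoneOf (t s : ℕ) : ℕ :=
  if s < 4 * t + 3 then 0
  else if s = 4 * t + 3 then 1
  else if s ≤ 16 * t + 12 then 2
  else if s = 16 * t + 13 then 6
  else if s = 16 * t + 14 then 3
  else if s ≤ 20 * t + 17 then 4
  else if s = 21 * t + 19 then 5
  else 6

lemma zone_eq {t : ℕ} (ht : 1 ≤ t) {e : Ed} {s : ℕ} (h : InFour t e s) :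
    zone e = zoneOf t s := by
  have hk : (4 * t + 3) % 2 = 1 := by omega
  rcases h with ⟨j, s, hj, hs⟩ | ⟨j, s, hj, hs⟩ | ⟨j, s, hj, hs⟩ | ⟨j, s, hj, hs⟩ | ⟨s, hs⟩ |
    ⟨s, hs⟩ | ⟨s, hs⟩ | ⟨j, s, hj, hs⟩ | ⟨j, s, hj, hs⟩ | ⟨j, s, hj, hs⟩ <;>
    (try have F1 := Y_facts hk hj) <;> (try have F2 := tau_lt hj) <;>
    (try have F3 := W_facts ht F2) <;> simp only [zone, zoneOf] <;> split_ifs <;> omega

lemma inFour_inj {t : ℕ} (ht : 1 ≤ t) {e e' : Ed} {s s' : ℕ} (h : InFour t e s)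
    (h' : InFour t e' s') (hss : s = s') : e = e' := by
  have hk : (4 * t + 3) % 2 = 1 := by omega
  have hz : zone e = zone e' := by rw [zone_eq ht h, zone_eq ht h', hss]
  rcases h with ⟨j, s, hj, hs⟩ | ⟨j, s, hj, hs⟩ | ⟨j, s, hj, hs⟩ | ⟨j, s, hj, hs⟩ | ⟨s, hs⟩ |
    ⟨s, hs⟩ | ⟨s, hs⟩ | ⟨j, s, hj, hs⟩ | ⟨j, s, hj, hs⟩ | ⟨j, s, hj, hs⟩ <;>
  rcases h' with ⟨j', s', hj', hs'⟩ | ⟨j', s', hj', hs'⟩ | ⟨j', s', hj', hs'⟩ |
    ⟨j', s', hj', hs'⟩ | ⟨s', hs'⟩ | ⟨s', hs'⟩ | ⟨s', hs'⟩ | ⟨j', s', hj', hs'⟩ |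
    ⟨j', s', hj', hs'⟩ | ⟨j', s', hj', hs'⟩ <;>
    simp only [zone] at hz <;> (try exact absurd hz (by decide))
  -- spokes of the first layer
  · have hjj : j = j' := by omega
    rw [hjj]
  -- spokes of the second layer
  · have F3 := (Y_facts2 hk hj hj').1
    have hjj : j = j' := F3 (by omega)
    rw [hjj]
  · have F4 := (Y_facts3 hk hj hj').1
    exact absurd (by omega) F4
  · have F4 := (Y_facts3 hk hj hj').2.1
    exact absurd (by omega) F4
  -- spokes of the third layer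
  · have hjj : j = j' := tau_inj hj hj' (by omega)
    rw [hjj]
  -- spokes of the fourth layer
  · have hjj : tau (4 * t + 3) j = tau (4 * t + 3) j' :=
      (W_facts2 ht (tau_lt hj) (tau_lt hj')).1 (by omega)
    rw [tau_inj hj hj' hjj]
  · exact absurd (by omega) (W_facts3 ht (tau_lt hj') (tau_lt hj))
  · rfl
  · rfl
  · rfl
  -- rungs from the first layer
  · have F4 := (Y_facts3 hk hj' hj).1
    exact absurd (by omega) F4
  · have F3 := (Y_facts2 hk hj hj').2.1
    have hjj : j = j' := F3 (by omega)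
    rw [hjj]
  · have F4 := (Y_facts3 hk hj hj').2.2
    exact absurd (by omega) F4
  -- rungs from the second layer
  · have F4 := (Y_facts3 hk hj' hj).2.1
    exact absurd (by omega) F4
  · have F4 := (Y_facts3 hk hj' hj).2.2
    exact absurd (by omega) F4
  · have F3 := (Y_facts2 hk hj hj').2.2
    have hjj : j = j' := F3 (by omega)
    rw [hjj]
  -- rungs from the third layer
  · exact absurd (by omega) (W_facts3 ht (tau_lt hj) (tau_lt hj'))
  · have hjj : tau (4 * t + 3) j = tau (4 * t + 3) j' :=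
      (W_facts2 ht (tau_lt hj) (tau_lt hj')).2 (by omega)
    rw [tau_inj hj hj' hjj]

lemma good_four {t : ℕ} (ht : 1 ≤ t) : Good (4 * t + 3) 4 (c4 t) (L4 t) := by
  have hk : (4 * t + 3) % 2 = 1 := by omega
  have hq : q (4 * t + 3) 4 = 28 * t + 24 := by unfold q; omega
  have hc : ∀ i, i < 4 → (i = 0 ∧ c4 t i = 0) ∨ (i = 1 ∧ c4 t i = 4 * t + 3) ∨
      (i = 2 ∧ c4 t i = 12 * t + 11) ∨ (i = 3 ∧ c4 t i = 9 * t + 8) := by
    intro i hi
    rcases i with _ | _ | _ | _ | i
    · simp [c4]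
    · simp [c4]
    · simp [c4]
    · simp [c4]
    · omega
  have hl : ∀ i j, i < 4 → (i = 0 ∧ L4 t i j = j) ∨ (i = 1 ∧ L4 t i j = Y (4 * t + 3) j) ∨
      (i = 2 ∧ L4 t i j = tau (4 * t + 3) j + (4 * t + 4)) ∨
      (i = 3 ∧ L4 t i j = W t (tau (4 * t + 3) j)) := by
    intro i j hi
    rcases i with _ | _ | _ | _ | i
    · simp [L4]
    · simp [L4]
    · simp [L4]
    · simp [L4]
    · omega
  refine ⟨by omega, rfl, fun j _ => rfl, ?_, ?_, ?_, ?_, ?_, ?_, ?_, ?_⟩
  · intro e hv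
    rw [hq]
    exact inFour_lt ht (inFour_of hv)
  · intro e e' hv hv' hs
    exact inFour_inj ht (inFour_of hv) (inFour_of hv') hs
  · intro i i' hi hi' hp hs
    have := hc i hi
    have := hc i' hi'
    omega
  · intro i i' j j' hi hi' hj hj' hp hs
    have F1 := Y_facts hk hj
    have F2 := Y_facts hk hj'
    have F3 := Y_facts2 hk hj hj'
    have T1 := tau_lt hj
    have T2 := tau_lt hj'
    have T3 := fun h => tau_inj hj hj' h
    have G1 := (W_facts ht T1).1
    have G2 := (W_facts ht T2).1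
    have G3 := (W_facts2 ht T1 T2).1
    have Y1 : Y (4 * t + 3) j < 12 * t + 9 := by omega
    have Y2 : Y (4 * t + 3) j' < 12 * t + 9 := by omega
    clear F1 F2
    rcases hl i j hi with h | h | h | h <;> rcases hl i' j' hi' with h' | h' | h' | h' <;>
      first
      | (exfalso; clear F3 G3 T3; omega)
      | (refine ⟨by omega, ?_⟩; omega)
  · intro i i' j hi hi' hj hp hs
    have F1 := Y_facts hk hj
    have T1 := tau_lt hj
    have G1 := (W_facts ht T1).1
    have G2 := (W_facts ht T1).2.1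
    rcases hc i hi with h | h | h | h <;> rcases hl i' j hi' with h' | h' | h' | h' <;> omega
  · intro i hi hp
    have := hc i hi
    omega
  · intro i j hi hj hp
    have := hl i j hi
    have F1 := Y_facts hk hj
    have T1 := tau_lt hj
    have G1 := W_facts ht T1
    omega
  · refine ⟨19 * t + 15, 9 * t + 8, by omega, ?_, ?_, ?_, ?_⟩
    · intro i hi hp
      have := hc i hi
      omega
    · intro i hi hp
      have := hc i hi
      omega
    · intro i j hi hj hp
      have := hl i j hi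
      have F1 := Y_facts hk hj
      have T1 := tau_lt hj
      have G1 := W_facts ht T1
      omega
    · intro i j hi hj hp
      have := hl i j hi
      have T1 := tau_lt hj
      omega


/-! ### Four layers, `k = 3` -/

/-- Centres of the special labeling. -/
def c3 (i : ℕ) : ℕ := [0, 3, 12, 6].getD i 0

/-- Pages of the special labeling. -/
def L3 (i j : ℕ) : ℕ := ([[0, 1, 2], [14, 3, 9], [8, 7, 4], [15, 2, 1]].getD i []).getD j 0

lemma good_three : Good 3 4 c3 L3 := by
  have hq : q 3 4 = 24 := rfl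
  refine ⟨by omega, rfl, by decide, ?_, ?_, ?_, ?_, ?_, ?_, ?_, ?_⟩
  · rw [hq]
    have h1 : ∀ i, i < 4 → ∀ j, j < 3 → c3 i + L3 i j < 24 := by decide
    have h2 : ∀ i, i < 3 → c3 i + c3 (i + 1) < 24 := by decide
    have h3 : ∀ i, i < 3 → ∀ j, j < 3 → L3 i j + L3 (i + 1) j < 24 := by decide
    rintro (⟨i, j⟩ | ⟨i⟩ | ⟨i, j⟩) hv <;> simp only [Ed.Valid, Ed.sum] at hv ⊢
    · exact h1 i hv.1 j hv.2
    · exact h2 i (by omega)
    · exact h3 i (by omega) j hv.2
  · have h11 : ∀ i, i < 4 → ∀ j, j < 3 → ∀ i', i' < 4 → ∀ j', j' < 3 →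
        c3 i + L3 i j = c3 i' + L3 i' j' → 3 * i + j = 3 * i' + j' := by decide
    have h12 : ∀ i, i < 4 → ∀ j, j < 3 → ∀ i', i' < 3 →
        c3 i + L3 i j ≠ c3 i' + c3 (i' + 1) := by decide
    have h13 : ∀ i, i < 4 → ∀ j, j < 3 → ∀ i', i' < 3 → ∀ j', j' < 3 →
        c3 i + L3 i j ≠ L3 i' j' + L3 (i' + 1) j' := by decide
    have h22 : ∀ i, i < 3 → ∀ i', i' < 3 → c3 i + c3 (i + 1) = c3 i' + c3 (i' + 1) → i = i' := by
      decide
    have h23 : ∀ i, i < 3 → ∀ i', i' < 3 → ∀ j', j' < 3 →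
        c3 i + c3 (i + 1) ≠ L3 i' j' + L3 (i' + 1) j' := by decide
    have h33 : ∀ i, i < 3 → ∀ j, j < 3 → ∀ i', i' < 3 → ∀ j', j' < 3 →
        L3 i j + L3 (i + 1) j = L3 i' j' + L3 (i' + 1) j' → 3 * i + j = 3 * i' + j' := by decide
    rintro (⟨i, j⟩ | ⟨i⟩ | ⟨i, j⟩) (⟨i', j'⟩ | ⟨i'⟩ | ⟨i', j'⟩) hv hv' hs <;>
      simp only [Ed.Valid, Ed.sum] at hv hv' hs
    · have h := h11 i hv.1 j hv.2 i' hv'.1 j' hv'.2 hs
      have h1 : i = i' := by omega
      have h2 : j = j' := by omega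
      rw [h1, h2]
    · exact absurd hs (h12 i hv.1 j hv.2 i' (by omega))
    · exact absurd hs (h13 i hv.1 j hv.2 i' (by omega) j' hv'.2)
    · exact absurd hs.symm (h12 i' hv'.1 j' hv'.2 i (by omega))
    · rw [h22 i (by omega) i' (by omega) hs]
    · exact absurd hs (h23 i (by omega) i' (by omega) j' hv'.2)
    · exact absurd hs.symm (h13 i' hv'.1 j' hv'.2 i (by omega) j hv.2)
    · exact absurd hs.symm (h23 i' (by omega) i (by omega) j hv.2)
    · have h := h33 i (by omega) j hv.2 i' (by omega) j' hv'.2 hs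
      have h1 : i = i' := by omega
      have h2 : j = j' := by omega
      rw [h1, h2]
  · have h : ∀ i, i < 4 → ∀ i', i' < 4 → i % 2 = i' % 2 → c3 i = c3 i' → i = i' := by decide
    exact fun i i' hi hi' => h i hi i' hi'
  · have h : ∀ i, i < 4 → ∀ i', i' < 4 → ∀ j, j < 3 → ∀ j', j' < 3 →
        L3 i j + 100 * (i % 2) = L3 i' j' + 100 * (i' % 2) → 3 * i + j = 3 * i' + j' := by decide
    intro i i' j j' hi hi' hj hj' hp hs
    have := h i hi i' hi' j hj j' hj' (by rw [hs, hp])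
    omega
  · have h : ∀ i, i < 4 → ∀ i', i' < 4 → ∀ j, j < 3 → i % 2 ≠ i' % 2 → c3 i ≠ L3 i' j := by
      decide
    exact fun i i' j hi hi' hj => h i hi i' hi' j hj
  · have h : ∀ i, i < 4 → i % 2 = 1 → 3 ≤ c3 i := by decide
    exact h
  · have h : ∀ i, i < 4 → ∀ j, j < 3 → i % 2 = 1 → 0 < L3 i j := by decide
    exact fun i j hi hj => h i hi j hj
  · refine ⟨15, 8, by decide, by decide, by decide, ?_, ?_⟩
    · have h : ∀ i, i < 4 → ∀ j, j < 3 → i % 2 = 1 → L3 i j ≤ 15 := by decide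
      exact fun i j hi hj => h i hi j hj
    · have h : ∀ i, i < 4 → ∀ j, j < 3 → i % 2 = 0 → L3 i j ≤ 8 := by decide
      exact fun i j hi hj => h i hi j hj

/-! ### All numbers of layers -/

lemma exists_good_four {k : ℕ} (hk : k % 4 = 3) : ∃ c L, Good k 4 c L := by
  obtain ⟨t, rfl⟩ : ∃ t, k = 4 * t + 3 := ⟨k / 4, by omega⟩
  rcases t with _ | t
  · exact ⟨_, _, good_three⟩
  · exact ⟨_, _, good_four (by omega)⟩

lemma exists_good_add {k n : ℕ} (hk : k % 2 = 1) (l : ℕ) (h : ∃ c L, Good k n c L) :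
    ∃ c L, Good k (n + 2 * l) c L := by
  induction l with
  | zero => exact h
  | succ l ih =>
    obtain ⟨c, L, hg⟩ := ih
    exact ⟨_, _, hg.step hk⟩

theorem exists_good {k n : ℕ} (hk : k % 2 = 1) (hn : 0 < n) (h : ¬ (n = 2 ∧ k % 4 = 3)) :
    ∃ c L, Good k n c L := by
  rcases Nat.mod_two_eq_zero_or_one n with hp | hp
  · rcases (by omega : k % 4 = 1 ∨ k % 4 = 3) with h4 | h4
    · obtain ⟨l, rfl⟩ : ∃ l, n = 2 + 2 * l := ⟨n / 2 - 1, by omega⟩
      exact exists_good_add hk l (exists_good_two h4)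
    · obtain ⟨l, rfl⟩ : ∃ l, n = 4 + 2 * l := ⟨n / 2 - 2, by omega⟩
      exact exists_good_add hk l (exists_good_four h4)
  · obtain ⟨l, rfl⟩ : ∃ l, n = 1 + 2 * l := ⟨n / 2, by omega⟩
    exact exists_good_add hk l ⟨_, _, good_one (by omega)⟩

end Pool.Agent.StackedBooks
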